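import Pool.Agent.H492.UT.Chk

/-!
# Soundness of the certificate in depth three modulo three
-/

set_option autoImplicit false

namespace Pool.Agent.H492.UT

open Pool.Agent.H492.UB

namespace H599C

/-! ### loops -/

theorem allN_spec {f : ℕ → Bool} : ∀ {n : ℕ}, allN n f = true → ∀ i < n, f i = true := by
  intro n
  induction n with
  | zero => intro _ i hi; omega
  | succ n ih =>
    intro h i hi
    have h' : cond (f n) (allN n f) false = true := h
    cases hf : f n with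
    | false => rw [hf] at h'; exact absurd h' (by simp)
    | true =>
      rw [hf] at h'
      rcases Nat.lt_succ_iff_lt_or_eq.1 hi with h1 | h1
      · exact ih h' i h1
      · rw [h1]; exact hf

theorem mem_spec {i : ℕ} : ∀ {l : List ℕ}, mem i l = true → i ∈ l := by
  intro l
  induction l with
  | nil => intro h; exact absurd h (by simp [mem])
  | cons x l ih =>
    intro h
    have h' : cond (Nat.beq x i) true (mem i l) = true := h
    cases hx : Nat.beq x i with
    | true => rw [Nat.eq_of_beq_eq_true hx]; exact List.mem_cons_self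
    | false => rw [hx] at h'; exact List.mem_cons_of_mem _ (ih h')

/-- the index computed by `can` -/
def idx (a b c : ℕ) : ℕ := can a b c fun j => j

theorem can_eq {α : Type} (a b c : ℕ) (k : ℕ → α) : can a b c k = k (idx a b c) := by
  unfold idx can
  simp only [frc_eq]
  cases Nat.ble 16 (tab 5 tN c) <;> rfl

theorem oth_spec {o a b c : ℕ} : ∀ {l : List ℕ}, oth o a b c l = true → ∀ t ∈ l,
    Nat.land (tab 17 tT (idx (tab 5 t a) (tab 5 t b) (tab 5 t c))) 8191 < o := by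
  intro l
  induction l with
  | nil => intro _ t ht; exact absurd ht (by simp)
  | cons x l ih =>
    intro h t ht
    have h' : can (tab 5 x a) (tab 5 x b) (tab 5 x c)
      (fun j => cond (Nat.blt (Nat.land (tab 17 tT j) 8191) o) (oth o a b c l) false) = true := h
    rw [can_eq] at h'
    cases hx : Nat.blt (Nat.land (tab 17 tT (idx (tab 5 x a) (tab 5 x b) (tab 5 x c))) 8191) o with
    | false => rw [hx] at h'; exact absurd h' (by simp)
    | true =>
      rw [hx] at h'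
      rcases List.mem_cons.1 ht with h1 | h1
      · rw [h1]; exact Nat.le_of_ble_eq_true hx
      · exact ih h' t h1

/-! ### letters -/

/-- the letters of the word with the columns `a b c` -/
noncomputable def lt (a b c : ℕ) (i : Fin 3) : U3 := ![dc a i, dc b i, dc c i]

theorem wd_eq (a b c : ℕ) : wd a b c = [lt a b c 0, lt a b c 1, lt a b c 2] := rfl

/-- determinant -/
def D (x y z : U3) : ZMod 3 :=
  x 0 * (y 1 * z 2 - y 2 * z 1) - x 1 * (y 0 * z 2 - y 2 * z 0) + x 2 * (y 0 * z 1 - y 1 * z 0)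

theorem det3_lt (a b c : ℕ) : det3 a b c < 3 := by
  unfold det3
  simp only [frc_eq]
  exact Nat.mod_lt _ (by norm_num)

theorem det3_cast (a b c : ℕ) : ((det3 a b c : ℕ) : ZMod 3) = D (lt a b c 0) (lt a b c 1) (lt a b c 2) := by
  have h3 : (3 : ZMod 3) = 0 := rfl
  unfold det3
  simp only [frc_eq]
  have e : ∀ n : ℕ, ((Nat.mod n 3 : ℕ) : ZMod 3) = n := fun n => ZMod.natCast_mod n 3
  rw [e]
  simp only [Nat.add_eq, Nat.mul_eq]
  push_cast
  simp only [D, lt, dc, Matrix.cons_val_zero, Matrix.cons_val_one, Matrix.cons_val_two, Matrix.head_cons,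
    Matrix.tail_cons, Fin.val_zero, Fin.val_one, Fin.val_two]
  generalize ((dg a 0 : ℕ) : ZMod 3) = a0
  generalize ((dg a 1 : ℕ) : ZMod 3) = a1
  generalize ((dg a 2 : ℕ) : ZMod 3) = a2
  generalize ((dg b 0 : ℕ) : ZMod 3) = b0
  generalize ((dg b 1 : ℕ) : ZMod 3) = b1
  generalize ((dg b 2 : ℕ) : ZMod 3) = b2
  generalize ((dg c 0 : ℕ) : ZMod 3) = c0
  generalize ((dg c 1 : ℕ) : ZMod 3) = c1
  generalize ((dg c 2 : ℕ) : ZMod 3) = c2
  linear_combination (a0 * b2 * c1 + a1 * (b0 * c2 + 2 * b2 * c0) - a1 * b2 * c0 + a2 * b1 * c0) * h3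

theorem det3_ne {a b c : ℕ} (h : D (lt a b c 0) (lt a b c 1) (lt a b c 2) ≠ 0) : det3 a b c ≠ 0 := by
  intro h0
  apply h
  rw [← det3_cast, h0]
  rfl


/-! ### tables -/

/-- the table `t` acts as the matrix `A` -/
def Tb (t : ℕ) (A : Fin 3 → Fin 3 → ZMod 3) : Prop :=
  ∀ x < 27, tab 5 t x < 27 ∧ ∀ i : Fin 3, dc (tab 5 t x) i = A i 0 * dc x 0 + A i 1 * dc x 1 + A i 2 * dc x 2

instance (t : ℕ) (A : Fin 3 → Fin 3 → ZMod 3) : Decidable (Tb t A) :=
  inferInstanceAs (Decidable (∀ x < 27, _))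

theorem lt_tab {t : ℕ} {A : Fin 3 → Fin 3 → ZMod 3} (h : Tb t A) {a b c : ℕ} (ha : a < 27) (hb : b < 27)
    (hc : c < 27) (i : Fin 3) : lt (tab 5 t a) (tab 5 t b) (tab 5 t c) i =
      A i 0 • lt a b c 0 + A i 1 • lt a b c 1 + A i 2 • lt a b c 2 := by
  funext j
  have e1 := (h a ha).2 i
  have e2 := (h b hb).2 i
  have e3 := (h c hc).2 i
  fin_cases j
  · exact e1
  · exact e2
  · exact e3

/-- the normalization of a column -/
def NF (c : ℕ) : Prop := (∀ i : Fin 3, dc c i = 0) ∨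
  (16 ≤ tab 5 tN c ∧ tab 5 tN c - 16 < 13 ∧ tab 5 tD (tab 5 tN c - 16) = tab 5 tE c) ∨
  (tab 5 tN c < 16 ∧ tab 5 tN c < 13 ∧ tab 5 tD (tab 5 tN c) = c)

instance (c : ℕ) : Decidable (NF c) := by unfold NF; infer_instance

theorem nf_all : ∀ c < 27, NF c := by decide +kernel

theorem tD_lt : ∀ c < 13, tab 5 tD c < 27 := by decide +kernel

theorem tE_tb : Tb tE ![![-1, 0, 0], ![0, -1, 0], ![0, 0, -1]] := by decide +kernel

theorem t0a : Tb (nat_lit 0x6af4cda78aca2e5c1aa7b128288e409860) ![![0, 1, 0], ![1, 0, 0], ![0, 0, 1]] := by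
  decide +kernel

theorem t0b : Tb (nat_lit 0x6a28cc0f879aee2d9a4ab07458a6a0c920) ![![0, 1, 0], ![0, 0, 1], ![1, 0, 0]] := by
  decide +kernel

theorem t1b : Tb (nat_lit 0x6b388c1e839af6ab9ac290749c96a48820) ![![1, 0, 0], ![0, 0, 1], ![0, 1, 0]] := by
  decide +kernel

theorem t2a : Tb (nat_lit 0x6af48b96828b369c1aa39038ac9ec49860) ![![0, 0, 1], ![1, 0, 0], ![0, 1, 0]] := by
  decide +kernel

theorem t3a : Tb (nat_lit 0x6a28bb8b458b303d9a49a83879aac1c920) ![![0, 0, 1], ![0, 1, 0], ![1, 0, 0]] := by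
  decide +kernel

theorem t4a : Tb (nat_lit 0x633abd6d3a49f08b98d52d263a0a320440) ![![-1, 1, 0], ![0, 1, 0], ![0, 0, 1]] := by
  decide +kernel

theorem t4b : Tb (nat_lit 0x4adaa5733be1ea7452d82d83388a609100) ![![-1, 1, 0], ![-1, 0, 1], ![0, 0, 1]] := by
  decide +kernel

theorem t5b : Tb (nat_lit 0x6ad2a66b79e1ca7c5a95c18238ca132080) ![![1, 0, 0], ![1, -1, 1], ![0, 0, 1]] := by
  decide +kernel

theorem t6a : Tb (nat_lit 0x62b29e6d7a69cb8bd89541a1390a241860) ![![0, -1, 1], ![1, -1, 1], ![0, 0, 1]] := by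
  decide +kernel

theorem t7a : Tb (nat_lit 0x4ab89db34bea2b73d2c829a4384a810cc0) ![![0, -1, 1], ![-1, 0, 1], ![0, 0, 1]] := by
  decide +kernel

/-! ### relations -/

section rel

variable {M : Type} [AddCommGroup M]

/-- the relations of alternal functions in depth three -/
def R3 (G : List U3 → M) : Prop :=
  (∀ x y z, G [x, y, z] + G [y, x, z] + G [y, z, x] = 0) ∧ ∀ x y z, G [z, y, x] = G [x, y, z]

theorem R3_of (G : List U3 → M) (h : ∀ x y z, G [x, y, z] + G [y, x, z] + G [y, z, x] = 0) : R3 G := by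
  refine ⟨h, fun x y z => ?_⟩
  have h1 := h x y z
  have h2 := h z y x
  have h3 : G [z, y, x] - G [x, y, z] = (G [z, y, x] + G [y, z, x] + G [y, x, z]) -
    (G [x, y, z] + G [y, x, z] + G [y, z, x]) := by abel
  rw [h1, h2, sub_zero] at h3
  exact sub_eq_zero.1 h3

theorem R3X {H : List U3 → M} (h : BA 3 H) : R3 H := by
  have h1 : R3 (fun w => H w.reverse) := by
    apply R3_of
    intro x y z
    have := h.1 [x] [y, z] (by simp) (by simp) rfl
    simpa [add_assoc] using this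
  apply R3_of
  intro x y z
  have e1 := h1.2 x y z
  have e2 := h1.2 y x z
  have e3 := h1.2 y z x
  have e4 := h1.1 x y z
  simp only [List.reverse_cons, List.reverse_nil, List.nil_append, List.cons_append] at e1 e2 e3 e4
  rw [e1, e2, e3]
  exact e4

theorem R3Y {H : List U3 → M} (h : BA 3 H) : R3 (fun w => H (ps 0 w)) := by
  apply R3_of
  intro x y z
  have := h.2 [x] [y, z] (by simp) (by simp) rfl
  simpa [add_assoc] using this


/-- the negative of a word -/
theorem wd_neg {a b c : ℕ} (ha : a < 27) (hb : b < 27) (hc : c < 27) :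
    wd (tab 5 tE a) (tab 5 tE b) (tab 5 tE c) = (wd a b c).map (fun x => -x) := by
  rw [wd_eq, wd_eq, lt_tab tE_tb ha hb hc 0, lt_tab tE_tb ha hb hc 1, lt_tab tE_tb ha hb hc 2]
  simp

theorem D_neg (x y z : U3) : D (-x) (-y) (-z) = - D x y z := by
  simp only [D, Pi.neg_apply]
  ring

theorem lt_neg {a b c : ℕ} (ha : a < 27) (hb : b < 27) (hc : c < 27) (i : Fin 3) :
    lt (tab 5 tE a) (tab 5 tE b) (tab 5 tE c) i = - lt a b c i := by
  rw [lt_tab tE_tb ha hb hc i]
  fin_cases i <;> simp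

omit [AddCommGroup M] in
theorem prev {H : List U3 → M} (he : ∀ w : List U3, H (w.map (fun x => -x)) = H w) {a b c : ℕ}
    (ha : a < 27) (hb : b < 27) (hc : c < 27) (hD : D (lt a b c 0) (lt a b c 1) (lt a b c 2) ≠ 0) :
    ∃ rc < 13, ∃ b' < 27, ∃ a' < 27, idx a b c = (27 * rc + b') * 27 + a' ∧
      D (lt a' b' (tab 5 tD rc) 0) (lt a' b' (tab 5 tD rc) 1) (lt a' b' (tab 5 tD rc) 2) ≠ 0 ∧
      H (wd a b c) = H (wd a' b' (tab 5 tD rc)) := by
  rcases nf_all c hc with h | ⟨h1, h2, h3⟩ | ⟨h1, h2, h3⟩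
  · exfalso
    apply hD
    have e0 := h 0
    have e1 := h 1
    have e2 := h 2
    simp only [D, lt, Matrix.cons_val_zero, Matrix.cons_val_one, Matrix.cons_val_two, Matrix.head_cons,
      Matrix.tail_cons, e0, e1, e2]
    ring
  · refine ⟨tab 5 tN c - 16, h2, tab 5 tE b, (tE_tb b hb).1, tab 5 tE a, (tE_tb a ha).1, ?_, ?_, ?_⟩
    · unfold idx can
      simp only [frc_eq]
      have : Nat.ble 16 (tab 5 tN c) = true := Nat.ble_eq_true_of_le h1
      rw [this]
      simp only [cond_true, Nat.add_eq, Nat.mul_eq, Nat.sub_eq]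
      ring
    · rw [h3, lt_neg ha hb hc, lt_neg ha hb hc, lt_neg ha hb hc, D_neg]
      exact neg_ne_zero.2 hD
    · rw [h3, wd_neg ha hb hc, he]
  · refine ⟨tab 5 tN c, h2, b, hb, a, ha, ?_, ?_, ?_⟩
    · unfold idx can
      simp only [frc_eq]
      have : Nat.ble 16 (tab 5 tN c) = false := by
        rw [Bool.eq_false_iff]
        intro h
        have := Nat.le_of_ble_eq_true h
        omega
      rw [this]
      simp only [cond_false, Nat.add_eq, Nat.mul_eq]
      ring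
    · rw [h3]
      exact hD
    · rw [h3]

theorem repj_eq {rc b a : ℕ} (hb : b < 27) (ha : a < 27) :
    repj ((27 * rc + b) * 27 + a) = wd a b (tab 5 tD rc) := by
  have e1 : ((27 * rc + b) * 27 + a) % 27 = a := by omega
  have e2 : ((27 * rc + b) * 27 + a) / 27 % 27 = b := by omega
  have e3 : ((27 * rc + b) * 27 + a) / 729 = rc := by omega
  unfold repj
  rw [e1, e2, e3]

/-- the words in the table `t` are obtained -/
theorem tword {t : ℕ} {A : Fin 3 → Fin 3 → ZMod 3} (h : Tb t A) {a b c : ℕ} (ha : a < 27) (hb : b < 27)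
    (hc : c < 27) {x y z x' y' z' : U3} (hx : lt a b c 0 = x) (hy : lt a b c 1 = y) (hz : lt a b c 2 = z)
    (e0 : A 0 0 • x + A 0 1 • y + A 0 2 • z = x') (e1 : A 1 0 • x + A 1 1 • y + A 1 2 • z = y')
    (e2 : A 2 0 • x + A 2 1 • y + A 2 2 • z = z') :
    lt (tab 5 t a) (tab 5 t b) (tab 5 t c) 0 = x' ∧ lt (tab 5 t a) (tab 5 t b) (tab 5 t c) 1 = y' ∧
      lt (tab 5 t a) (tab 5 t b) (tab 5 t c) 2 = z' := by
  rw [lt_tab h ha hb hc 0, lt_tab h ha hb hc 1, lt_tab h ha hb hc 2, hx, hy, hz]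
  exact ⟨e0, e1, e2⟩

/-- the words with the tables in row `q` have nonzero determinant, and if `H` vanishes there, then also at the
given word -/
theorem step {H : List U3 → M} (h : BA 3 H) {a b c : ℕ} (ha : a < 27) (hb : b < 27) (hc : c < 27)
    (hD : D (lt a b c 0) (lt a b c 1) (lt a b c 2) ≠ 0) {q : ℕ} (hq : q < 8) :
    (∀ t ∈ nth [] rows q, (∀ x < 27, tab 5 t x < 27) ∧ D (lt (tab 5 t a) (tab 5 t b) (tab 5 t c) 0)
      (lt (tab 5 t a) (tab 5 t b) (tab 5 t c) 1) (lt (tab 5 t a) (tab 5 t b) (tab 5 t c) 2) ≠ 0) ∧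
    ((∀ t ∈ nth [] rows q, H (wd (tab 5 t a) (tab 5 t b) (tab 5 t c)) = 0) → H (wd a b c) = 0) := by
  have hX := R3X h
  have hY := R3Y h
  simp only [wd_eq]
  generalize hx : lt a b c 0 = x at *
  generalize hy : lt a b c 1 = y at *
  generalize hz : lt a b c 2 = z at *
  have w0a := tword t0a ha hb hc hx hy hz (x' := y) (y' := x) (z' := z) (by simp) (by simp) (by simp)
  have w0b := tword t0b ha hb hc hx hy hz (x' := y) (y' := z) (z' := x) (by simp) (by simp) (by simp)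
  have w1b := tword t1b ha hb hc hx hy hz (x' := x) (y' := z) (z' := y) (by simp) (by simp) (by simp)
  have w2a := tword t2a ha hb hc hx hy hz (x' := z) (y' := x) (z' := y) (by simp) (by simp) (by simp)
  have w3a := tword t3a ha hb hc hx hy hz (x' := z) (y' := y) (z' := x) (by simp) (by simp) (by simp)
  have w4a := tword t4a ha hb hc hx hy hz (x' := -x + y) (y' := y) (z' := z) (by simp) (by simp) (by simp)
  have w4b := tword t4b ha hb hc hx hy hz (x' := -x + y) (y' := -x + z) (z' := z) (by simp) (by simp) (by simp)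
  have w5b := tword t5b ha hb hc hx hy hz (x' := x) (y' := x + -y + z) (z' := z) (by simp) (by simp) (by simp)
  have w6a := tword t6a ha hb hc hx hy hz (x' := -y + z) (y' := x + -y + z) (z' := z) (by simp) (by simp) (by simp)
  have w7a := tword t7a ha hb hc hx hy hz (x' := -y + z) (y' := -x + z) (z' := z) (by simp) (by simp) (by simp)
  have dz : ∀ s : ZMod 3, (s = D x y z ∨ s = - D x y z) → s ≠ 0 := by
    rintro s (rfl | rfl)
    · exact hD
    · exact neg_ne_zero.2 hD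
  have d0a : D y x z ≠ 0 := dz _ (Or.inr (by simp only [D]; ring))
  have d0b : D y z x ≠ 0 := dz _ (Or.inl (by simp only [D]; ring))
  have d1b : D x z y ≠ 0 := dz _ (Or.inr (by simp only [D]; ring))
  have d2a : D z x y ≠ 0 := dz _ (Or.inl (by simp only [D]; ring))
  have d3a : D z y x ≠ 0 := dz _ (Or.inr (by simp only [D]; ring))
  have d4a : D (-x + y) y z ≠ 0 := dz _ (Or.inr (by simp only [D, Pi.add_apply, Pi.neg_apply]; ring))
  have d4b : D (-x + y) (-x + z) z ≠ 0 := dz _ (Or.inl (by simp only [D, Pi.add_apply, Pi.neg_apply]; ring))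
  have d5b : D x (x + -y + z) z ≠ 0 := dz _ (Or.inr (by simp only [D, Pi.add_apply, Pi.neg_apply]; ring))
  have d6a : D (-y + z) (x + -y + z) z ≠ 0 := dz _ (Or.inl (by simp only [D, Pi.add_apply, Pi.neg_apply]; ring))
  have d7a : D (-y + z) (-x + z) z ≠ 0 := dz _ (Or.inr (by simp only [D, Pi.add_apply, Pi.neg_apply]; ring))
  have l0a := fun v hv => (t0a v hv).1
  have l0b := fun v hv => (t0b v hv).1
  have l1b := fun v hv => (t1b v hv).1
  have l2a := fun v hv => (t2a v hv).1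
  have l3a := fun v hv => (t3a v hv).1
  have l4a := fun v hv => (t4a v hv).1
  have l4b := fun v hv => (t4b v hv).1
  have l5b := fun v hv => (t5b v hv).1
  have l6a := fun v hv => (t6a v hv).1
  have l7a := fun v hv => (t7a v hv).1
  have two : ∀ (t s : ℕ) (P : ℕ → Prop), (∀ r ∈ [t, s], P r) ↔ P t ∧ P s := fun t s P => by simp
  have one : ∀ (t : ℕ) (P : ℕ → Prop), (∀ r ∈ [t], P r) ↔ P t := fun t P => by simp
  have p1 : ps 0 [x, -x + y, -y + z] = [x, y, z] := by
    simp only [ps_cons, ps_nil, List.cons.injEq, and_true]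
    refine ⟨?_, ?_, ?_⟩ <;> abel
  have p2 : ps 0 [-x + y, x, -y + z] = [-x + y, y, z] := by
    simp only [ps_cons, ps_nil, List.cons.injEq, and_true]
    refine ⟨?_, ?_, ?_⟩ <;> abel
  have p3 : ps 0 [-x + y, -y + z, x] = [-x + y, -x + z, z] := by
    simp only [ps_cons, ps_nil, List.cons.injEq, and_true]
    refine ⟨?_, ?_, ?_⟩ <;> abel
  have p4 : ps 0 [x, -y + z, -x + y] = [x, x + -y + z, z] := by
    simp only [ps_cons, ps_nil, List.cons.injEq, and_true]
    refine ⟨?_, ?_, ?_⟩ <;> abel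
  have p5 : ps 0 [-y + z, x, -x + y] = [-y + z, x + -y + z, z] := by
    simp only [ps_cons, ps_nil, List.cons.injEq, and_true]
    refine ⟨?_, ?_, ?_⟩ <;> abel
  have p6 : ps 0 [-y + z, -x + y, x] = [-y + z, -x + z, z] := by
    simp only [ps_cons, ps_nil, List.cons.injEq, and_true]
    refine ⟨?_, ?_, ?_⟩ <;> abel
  have hY4 := hY.1 x (-x + y) (-y + z)
  have hY5 := hY.1 (-x + y) x (-y + z)
  have hY6 := hY.1 (-y + z) x (-x + y)
  have hY7 := hY.2 x (-x + y) (-y + z)
  beta_reduce at hY4 hY5 hY6 hY7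
  rw [p1, p2, p3] at hY4
  rw [p1, p2, p4] at hY5
  rw [p1, p4, p5] at hY6
  rw [p1, p6] at hY7
  interval_cases q
  · refine ⟨(two _ _ _).2 ⟨⟨l0a, ?_⟩, ⟨l0b, ?_⟩⟩, fun hh => ?_⟩
    · rw [w0a.1, w0a.2.1, w0a.2.2]; exact d0a
    · rw [w0b.1, w0b.2.1, w0b.2.2]; exact d0b
    · obtain ⟨h1, h2⟩ := (two _ _ _).1 hh
      rw [w0a.1, w0a.2.1, w0a.2.2] at h1
      rw [w0b.1, w0b.2.1, w0b.2.2] at h2
      have h3 := hX.1 x y z
      rw [h1, h2, add_zero, add_zero] at h3
      exact h3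
  · refine ⟨(two _ _ _).2 ⟨⟨l0a, ?_⟩, ⟨l1b, ?_⟩⟩, fun hh => ?_⟩
    · rw [w0a.1, w0a.2.1, w0a.2.2]; exact d0a
    · rw [w1b.1, w1b.2.1, w1b.2.2]; exact d1b
    · obtain ⟨h1, h2⟩ := (two _ _ _).1 hh
      rw [w0a.1, w0a.2.1, w0a.2.2] at h1
      rw [w1b.1, w1b.2.1, w1b.2.2] at h2
      have h3 := hX.1 y x z
      rw [h1, h2, add_zero, zero_add] at h3
      exact h3
  · refine ⟨(two _ _ _).2 ⟨⟨l2a, ?_⟩, ⟨l1b, ?_⟩⟩, fun hh => ?_⟩
    · rw [w2a.1, w2a.2.1, w2a.2.2]; exact d2a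
    · rw [w1b.1, w1b.2.1, w1b.2.2]; exact d1b
    · obtain ⟨h1, h2⟩ := (two _ _ _).1 hh
      rw [w2a.1, w2a.2.1, w2a.2.2] at h1
      rw [w1b.1, w1b.2.1, w1b.2.2] at h2
      have h3 := hX.1 z x y
      rw [h1, h2, add_zero, zero_add] at h3
      exact h3
  · refine ⟨(one _ _).2 ⟨l3a, ?_⟩, fun hh => ?_⟩
    · rw [w3a.1, w3a.2.1, w3a.2.2]; exact d3a
    · have h1 := (one _ _).1 hh
      rw [w3a.1, w3a.2.1, w3a.2.2] at h1
      rw [← hX.2 x y z]
      exact h1
  · refine ⟨(two _ _ _).2 ⟨⟨l4a, ?_⟩, ⟨l4b, ?_⟩⟩, fun hh => ?_⟩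
    · rw [w4a.1, w4a.2.1, w4a.2.2]; exact d4a
    · rw [w4b.1, w4b.2.1, w4b.2.2]; exact d4b
    · obtain ⟨h1, h2⟩ := (two _ _ _).1 hh
      rw [w4a.1, w4a.2.1, w4a.2.2] at h1
      rw [w4b.1, w4b.2.1, w4b.2.2] at h2
      rw [h1, h2, add_zero, add_zero] at hY4
      exact hY4
  · refine ⟨(two _ _ _).2 ⟨⟨l4a, ?_⟩, ⟨l5b, ?_⟩⟩, fun hh => ?_⟩
    · rw [w4a.1, w4a.2.1, w4a.2.2]; exact d4a
    · rw [w5b.1, w5b.2.1, w5b.2.2]; exact d5b
    · obtain ⟨h1, h2⟩ := (two _ _ _).1 hh
      rw [w4a.1, w4a.2.1, w4a.2.2] at h1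
      rw [w5b.1, w5b.2.1, w5b.2.2] at h2
      rw [h1, h2, add_zero, zero_add] at hY5
      exact hY5
  · refine ⟨(two _ _ _).2 ⟨⟨l6a, ?_⟩, ⟨l5b, ?_⟩⟩, fun hh => ?_⟩
    · rw [w6a.1, w6a.2.1, w6a.2.2]; exact d6a
    · rw [w5b.1, w5b.2.1, w5b.2.2]; exact d5b
    · obtain ⟨h1, h2⟩ := (two _ _ _).1 hh
      rw [w6a.1, w6a.2.1, w6a.2.2] at h1
      rw [w5b.1, w5b.2.1, w5b.2.2] at h2
      rw [h1, h2, zero_add, zero_add] at hY6
      exact hY6
  · refine ⟨(one _ _).2 ⟨l7a, ?_⟩, fun hh => ?_⟩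
    · rw [w7a.1, w7a.2.1, w7a.2.2]; exact d7a
    · have h1 := (one _ _).1 hh
      rw [w7a.1, w7a.2.1, w7a.2.2] at h1
      rw [← hY7]
      exact h1

/-- the code of a column -/
theorem exists_code (x : Fin 3 → ZMod 3) : ∃ a < 27, ∀ i : Fin 3, dc a i = x i := by
  have key : ∀ u v w : Fin 3, (u.val + 3 * v.val + 9 * w.val) < 27 ∧
      dc (u.val + 3 * v.val + 9 * w.val) 0 = (u : ZMod 3) ∧ dc (u.val + 3 * v.val + 9 * w.val) 1 = (v : ZMod 3) ∧
      dc (u.val + 3 * v.val + 9 * w.val) 2 = (w : ZMod 3) := by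
    have : ∀ u : ZMod 3, ∀ v : ZMod 3, ∀ w : ZMod 3, (ZMod.val u + 3 * ZMod.val v + 9 * ZMod.val w) < 27 ∧
      dc (ZMod.val u + 3 * ZMod.val v + 9 * ZMod.val w) 0 = u ∧ dc (ZMod.val u + 3 * ZMod.val v + 9 * ZMod.val w) 1 = v ∧
      dc (ZMod.val u + 3 * ZMod.val v + 9 * ZMod.val w) 2 = w := by decide +kernel
    exact this
  obtain ⟨k0, k1, k2, k3⟩ := key (x 0) (x 1) (x 2)
  refine ⟨_, k0, fun i => ?_⟩
  fin_cases i
  · exact k1
  · exact k2
  · exact k3

/-- columns of a basis -/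
theorem exists_cols (h : Fin 3 → U3) (hl : LinearIndependent (ZMod 3) h) :
    ∃ a < 27, ∃ b < 27, ∃ c < 27, List.ofFn h = wd a b c ∧
      D (lt a b c 0) (lt a b c 1) (lt a b c 2) ≠ 0 := by
  obtain ⟨a, ha, ha'⟩ := exists_code fun i => h i 0
  obtain ⟨b, hb, hb'⟩ := exists_code fun i => h i 1
  obtain ⟨c, hc, hc'⟩ := exists_code fun i => h i 2
  have hlt : ∀ i, lt a b c i = h i := by
    intro i
    funext j
    fin_cases j
    · exact ha' i
    · exact hb' i
    · exact hc' i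
  refine ⟨a, ha, b, hb, c, hc, ?_, ?_⟩
  · rw [wd_eq, hlt, hlt, hlt]
    rfl
  · rw [hlt, hlt, hlt]
    have h1 : LinearIndependent (ZMod 3) (Matrix.of h).row := hl
    rw [Matrix.linearIndependent_rows_iff_isUnit, Matrix.isUnit_iff_isUnit_det, Matrix.det_fin_three] at h1
    have h2 := h1.ne_zero
    intro h0
    apply h2
    rw [← h0]
    simp only [D, Matrix.of_apply]
    ring

end rel

end H599C

open H599C in
theorem sCert (hk : allN 13 blk = true) : SCert := by
  intro M _ _ H hBA he hL h hl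
  have main : ∀ o : ℕ, ∀ rc < 13, ∀ b < 27, ∀ a < 27,
      D (lt a b (tab 5 tD rc) 0) (lt a b (tab 5 tD rc) 1) (lt a b (tab 5 tD rc) 2) ≠ 0 →
      Nat.land (tab 17 tT ((27 * rc + b) * 27 + a)) 8191 = o → H (wd a b (tab 5 tD rc)) = 0 := by
    intro o
    induction o using Nat.strong_induction_on with
    | _ o ih =>
      intro rc hrc b hb a ha hD ho
      have h1 : ent rc b a = true := allN_spec (allN_spec (allN_spec hk rc hrc) b hb) a ha
      unfold ent at h1
      simp only [frc_eq] at h1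
      have hd : Nat.beq (det3 a b (tab 5 tD rc)) 0 = false := by
        rw [Bool.eq_false_iff]
        intro h'
        exact det3_ne hD (Nat.eq_of_beq_eq_true h')
      rw [hd, cond_false] at h1
      have ej : Nat.add (Nat.mul (Nat.add (Nat.mul rc 27) b) 27) a = (27 * rc + b) * 27 + a := by
        simp only [Nat.add_eq, Nat.mul_eq]
        ring
      rw [ej] at h1
      generalize hq : Nat.shiftRight (tab 17 tT ((27 * rc + b) * 27 + a)) 13 = q at h1
      cases h8 : Nat.beq q 8 with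
      | true =>
        rw [h8, cond_true] at h1
        rw [← repj_eq hb ha]
        exact hL _ (mem_spec h1)
      | false =>
        rw [h8, cond_false] at h1
        cases h9 : Nat.blt q 8 with
        | false => rw [h9] at h1; exact absurd h1 (by simp)
        | true =>
          rw [h9, cond_true, ho] at h1
          have hq8 : q < 8 := Nat.le_of_ble_eq_true h9
          have hc := tD_lt rc hrc
          have hs := step hBA ha hb hc hD hq8
          apply hs.2
          intro t ht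
          obtain ⟨hlt, hDt⟩ := hs.1 t ht
          have hol := oth_spec h1 t ht
          obtain ⟨rc', hrc', b', hb', a', ha', hi, hD', hH⟩ := prev he (hlt a ha) (hlt b hb) (hlt _ hc) hDt
          rw [hi] at hol
          rw [hH]
          exact ih _ hol rc' hrc' b' hb' a' ha' hD' rfl
  obtain ⟨a, ha, b, hb, c, hc, hw, hD⟩ := exists_cols h hl
  obtain ⟨rc', hrc', b', hb', a', ha', -, hD', hH⟩ := prev he ha hb hc hD
  rw [hw, hH]
  exact main _ rc' hrc' b' hb' a' ha' hD' rfl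

end Pool.Agent.H492.UT
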