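import Pool.Agent.H492.UT.K
import Pool.Agent.H492.UT.SCertPf
import Pool.Agent.H492.UT.SSep3Pf
import Pool.Agent.H492.UT.SCount3Pf
import Pool.Agent.H492.UB.STransP
import Pool.Agent.H492.UB.SDim
import Pool.Agent.H492.RZ.SOdd23

/-!
# The upper bound in depth three by reduction modulo three
-/

set_option autoImplicit false

namespace Pool.Agent.H492.UT

open Pool.Agent.H492.UB

theorem span3 : Span3 (Lx.map repj) := by
  refine ⟨fun t ht => ?_, fun M _ _ H h1 h2 h3 h hh => ?_⟩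
  · obtain ⟨j, _, rfl⟩ := List.mem_map.1 ht
    simp [repj, wd]
  · exact sCert k_all M H h1 h2 (fun j hj => h3 _ (List.mem_map.2 ⟨j, hj, rfl⟩)) h hh

/-- **Depth three modulo three.** -/
theorem w3_le : ∃ κ : ℕ, ∀ e : ℕ, 5616 * Module.finrank ℚ (W ℚ 3 e) ≤ 235 * (e + κ + 2).choose 2 := by
  obtain ⟨κ, hκ⟩ := sSep3.1
  refine ⟨κ, fun e => ?_⟩
  rcases Nat.even_or_odd e with he | he
  · have : Fact (Nat.Prime 3) := ⟨Nat.prime_three⟩
    have h1 := sModP 3 3 e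
    have h2 := sCount3 κ _ hκ span3 sDim e he
    rw [sSep3.2, List.length_map, Lx_length] at h2
    exact (Nat.mul_le_mul_left _ h1).trans h2
  · rw [Pool.Agent.H492.RZ.sOdd3 e he]
    rw [finrank_bot]
    omega

/-- the asymptotic form -/
theorem ls3W : ∃ C : ℝ, ∀ e : ℕ, (Module.finrank ℚ (W ℚ 3 e) : ℝ) ≤ (235 / 11232) * e ^ 2 + C * (e + 1) := by
  obtain ⟨κ, hκ⟩ := w3_le
  refine ⟨((κ : ℝ) + 2) ^ 2, fun e => ?_⟩
  have h1 := hκ e
  have h2 : (e + κ + 2).choose 2 * 2 = (e + κ + 2) * (e + κ + 1) := by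
    rw [Nat.choose_two_right]
    have e1 : e + κ + 2 - 1 = e + κ + 1 := by omega
    rw [e1]
    exact Nat.div_mul_cancel (by
      have := (Nat.even_mul_succ_self (e + κ + 1)).two_dvd
      rwa [mul_comm] at this)
  have h3 : 11232 * Module.finrank ℚ (W ℚ 3 e) ≤ 235 * ((e + κ + 2) * (e + κ + 1)) := by
    rw [← h2]
    omega
  have h4 : (11232 : ℝ) * (Module.finrank ℚ (W ℚ 3 e) : ℝ) ≤ 235 * (((e : ℝ) + κ + 2) * (e + κ + 1)) := by
    exact_mod_cast h3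
  clear hκ h1 h2 h3
  generalize (Module.finrank ℚ (W ℚ 3 e) : ℝ) = y at h4 ⊢
  have he : (0 : ℝ) ≤ e := Nat.cast_nonneg _
  have hk : (0 : ℝ) ≤ κ := Nat.cast_nonneg _
  generalize (e : ℝ) = x at h4 he ⊢
  generalize (κ : ℝ) = k at h4 hk ⊢
  have h5 : 0 ≤ x * k := mul_nonneg he hk
  have h6 : 0 ≤ k * k := mul_nonneg hk hk
  have h7 : 0 ≤ x * (k * k) := mul_nonneg he h6
  nlinarith

end Pool.Agent.H492.UT
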