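import Pool.Agent.H492.UT.Chk

/-!
# The certificate in depth three modulo three: kernel check
-/

set_option autoImplicit false

namespace Pool.Agent.H492.UT

theorem k_all : allN 13 blk = true := by
  decide +kernel

theorem Lx_length : Lx.length = 235 := by
  decide +kernel

end Pool.Agent.H492.UT
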