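import Pool.Agent.H492.UB.Stm3

/-!
# Statements for the upper bound in depth three by reduction modulo three
-/

set_option autoImplicit false

namespace Pool.Agent.H492.UT

open MvPolynomial Pool.Agent.H492.UB

/-- the vectors -/
abbrev U3 : Type := Fin 3 → ZMod 3

/-- the linear form of a vector -/
noncomputable def lin3 (v : U3) : MvPolynomial (Fin 3) (ZMod 3) := ∑ i, C (v i) * X i

/-- the first nonzero coordinate is one -/
def Nrm (v : U3) : Prop := ∃ i, v i = 1 ∧ ∀ j < i, v j = 0

/-- the bases with normalized last vector -/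
abbrev BasN : Type := {h : Fin 3 → U3 // LinearIndependent (ZMod 3) h ∧ Nrm (h 2)}

noncomputable instance : Fintype BasN := Fintype.ofFinite _

/-- polynomials of degree `κ` over `𝔽₃` which separate the points -/
def Sep3 (κ : ℕ) : Prop := ∃ p : BasN → MvPolynomial (Fin 3) (ZMod 3),
  (∀ j, (p j).IsHomogeneous κ) ∧ ∀ F : BasN → MvPolynomial (Fin 3) (ZMod 3),
    (∀ h : BasN, ∑ j, F j * aeval (fun i => lin3 (h.1 i)) (p j) = 0) → F = 0

def SSep3 : Prop := (∃ κ : ℕ, Sep3 κ) ∧ Fintype.card BasN = 5616

/-- `L` determines the even functions with the double shuffle relations -/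
def Span3 (L : List (List U3)) : Prop := (∀ t ∈ L, t.length = 3) ∧
  ∀ (M : Type) [AddCommGroup M] [Module (ZMod 3) M] (H : List U3 → M), BA 3 H →
    (∀ w : List U3, H (w.map (fun x => -x)) = H w) → (∀ t ∈ L, H t = 0) →
    ∀ h : Fin 3 → U3, LinearIndependent (ZMod 3) h → H (List.ofFn h) = 0

/-- the counting argument -/
def SCount3 : Prop := ∀ (κ : ℕ) (L : List (List U3)), Sep3 κ → Span3 L → SDim → ∀ e : ℕ, Even e →
  Fintype.card BasN * Module.finrank (ZMod 3) (W (ZMod 3) 3 e) ≤ L.length * (e + κ + 2).choose 2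

end Pool.Agent.H492.UT
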